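import Mathlib
import Pool.Agent.TH858.CB.Main

/-!
# Q1 when `2A - 2A` contains a convex Bohr set

A convex Bohr set of dimension `d` in `ℤ/N` is given by `d` frequencies `γ_k` and a symmetric convex set `K ⊆ ℝ^d`: it
consists of the `x ∈ ℤ/N` for which the vector `(γ_k x / N)_k` is congruent modulo `1` to an element of `K`. The Bohr
sets with different radii `ε_k` (`K` a box), their dilates, the sets given by `∑_k ‖γ_k x / N‖ ≤ ε` or
`∑_k ‖γ_k x / N‖² ≤ ε²`, the sums of Bohr sets with the same frequencies, the intersections of such sets and the sets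
`|∑_k m_k y_k| ≤ δ` with integer or real coefficients `m_k` are of this kind.

The theorem says that the conclusion of Q1 holds for `A` as soon as `2A - 2A` contains a convex Bohr set of dimension
`d = O(log (1/α))` and of density `exp (- O(log (1/α) log log (1/α)))`, where `K` is contained in a box of size
`O(log (1/α))`; the convex set may be as flat or elongated as one likes, in any direction, and it need not contain a ball of
radius `≫ 1 / log (1/α)`. In particular it holds for the convex Bohr sets `A` themselves. This is the tool from which the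
starting result `ProperProgressions` of this folder is obtained in the library; that file mentions it as its
sibling file `ConvexBohrSets`, which was not handed in.

Proof (library: `Pool.Agent.TH858.CB`). Among the vectors `y ∈ [-R, R]^d` congruent to `(γ_k x / N)_k` for some `x` one
selects a basis `w` such that the vectors in `K` are combinations with coefficients at most `1` of those `w_j` which
are in `K` (`Sel`). The number of elements of the convex Bohr set is at most `5^d N |det w|` (`Idx`). By an exchange argument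
there are at most `log (d! R^d / |det w|) / log R` integer combinations of the `γ_k` which control the
coordinates with respect to `w` (`Exch`).
-/

set_option autoImplicit false

namespace Pool.Agent.Results.MP_169871_nt.ConvexBohrSets

open Pool.Agent.TH858

/-- The Bohr set `B(Γ, ε) = {x ∈ ℤ/N : ‖γ x / N‖ ≤ ε for all γ ∈ Γ}`; the norm is the distance to the nearest
integer. -/
def bohr {N : ℕ} (Γ : Finset (ZMod N)) (ε : ℝ) : Set (ZMod N) :=
  {x | ∀ γ ∈ Γ, |((γ * x).val : ℝ) / (N : ℝ) - ((round (((γ * x).val : ℝ) / (N : ℝ)) : ℤ) : ℝ)| ≤ ε}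

/-- The set of all `x ∈ ℤ/N` for which `(γ_k x / N)_k` is congruent modulo `1` to an element of `K`. -/
def convexBohr {N d : ℕ} (γ : Fin d → ZMod N) (K : Set (Fin d → ℝ)) : Set (ZMod N) :=
  {x | ∃ y ∈ K, ∀ k, ∃ z : ℤ, y k = ((γ k * x).val : ℝ) / (N : ℝ) + z}

/-- The set `2A - 2A`. -/
def twoAMinusTwoA {N : ℕ} (A : Finset (ZMod N)) : Set (ZMod N) :=
  {x | ∃ a₁ ∈ A, ∃ a₂ ∈ A, ∃ a₃ ∈ A, ∃ a₄ ∈ A, x = a₁ + a₂ - a₃ - a₄}

/-- A convex Bohr set with `K ⊆ [-R, R]^d`, `R ≥ d + 2`, contains a Bohr set of radius `1 / (8 R)` with at most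
`24 d + 4 log (N / |P|) / log R` frequencies. -/
theorem part_one (N : ℕ) (hN : 0 < N) (d : ℕ) (γ : Fin d → ZMod N) (K : Set (Fin d → ℝ)) (hK : Convex ℝ K)
    (hsym : ∀ y ∈ K, -y ∈ K) (hne : K.Nonempty) (R : ℝ) (hR : (d : ℝ) + 2 ≤ R)
    (hbox : ∀ y ∈ K, ∀ k, |y k| ≤ R) :
    ∃ Γ : Finset (ZMod N),
      (Γ.card : ℝ) ≤ 24 * d + 4 * (Real.log ((N : ℝ) / ((convexBohr γ K).ncard : ℝ)) / Real.log R) ∧
      bohr Γ (1 / (8 * R)) ⊆ convexBohr γ K ∧ 0 ∈ convexBohr γ K := by
  classical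
  have : NeZero N := ⟨hN.ne'⟩
  have h0K : (0 : Fin d → ℝ) ∈ K := by
    obtain ⟨y, hy⟩ := hne
    have := hK hy (hsym y hy) (a := 1 / 2) (b := 1 / 2) (by norm_num) (by norm_num) (by norm_num)
    simpa using this
  have h0 : (0 : ZMod N) ∈ convexBohr γ K := ⟨0, h0K, fun k => ⟨0, by simp⟩⟩
  have hfin : (convexBohr γ K).Finite := Set.toFinite _
  have hA : ∀ x, x ∈ hfin.toFinset ↔ ∃ y ∈ K, ∀ k, |y k| ≤ R ∧ ∃ z : ℤ, y k = ((γ k * x).val : ℝ) / N + z := by
    intro x
    rw [Set.Finite.mem_toFinset]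
    constructor
    · rintro ⟨y, hy, h⟩
      exact ⟨y, hy, fun k => ⟨hbox y hy k, h k⟩⟩
    · rintro ⟨y, hy, h⟩
      exact ⟨y, hy, fun k => (h k).2⟩
  have hne' : hfin.toFinset.Nonempty := ⟨0, by rwa [Set.Finite.mem_toFinset]⟩
  obtain ⟨Γ, h1, h2⟩ := CB.main γ K hK hsym R hR hfin.toFinset hne' hA
  refine ⟨Γ, ?_, fun x hx => ?_, h0⟩
  · rw [Set.ncard_eq_toFinset_card _ hfin]
    exact h1
  · have h3 := h2 x fun g hg => hx g hg
    rwa [Set.Finite.mem_toFinset] at h3

/-- **Q1 when `2A - 2A` contains a convex Bohr set**, and for the convex Bohr sets themselves.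

Let `C > 0`, let `A ⊆ ℤ/N` be a nonempty set of density `α ≤ 1 / 2` and let `P = convexBohr γ K` be a convex Bohr set of
dimension `d ≤ C log (1/α)` with `K ⊆ [-R, R]^d`, `R = (C + 3) log (1/α)`. First part: if `P ⊆ 2A - 2A` and the density of
`P` is at least `exp (- C log (1/α) log (2 + log (1/α)))`, then `2A - 2A` contains a Bohr set `B(Γ, ε)` with
`|Γ| ≤ (32 C) log (1/α)` and `ε ≥ c / log (1/α)`, `c = 1 / (8 (C + 3))`. Second part: if `P = A`, then `A` itself and
`2A - 2A` contain such a Bohr set. Third part: the general statement, for all `R ≥ d + 2`. -/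
theorem result :
    (∀ (C : ℝ), 0 < C → ∀ (N : ℕ), 0 < N → ∀ (A : Finset (ZMod N)), A.Nonempty →
      (A.card : ℝ) / (N : ℝ) ≤ 1 / 2 →
      ∀ (d : ℕ) (γ : Fin d → ZMod N) (K : Set (Fin d → ℝ)), Convex ℝ K → (∀ y ∈ K, -y ∈ K) → K.Nonempty →
      (d : ℝ) ≤ C * Real.log ((N : ℝ) / (A.card : ℝ)) →
      (∀ y ∈ K, ∀ k, |y k| ≤ (C + 3) * Real.log ((N : ℝ) / (A.card : ℝ))) →
      (convexBohr γ K ⊆ twoAMinusTwoA A →
        Real.log ((N : ℝ) / ((convexBohr γ K).ncard : ℝ)) ≤
          C * Real.log ((N : ℝ) / (A.card : ℝ)) * Real.log (2 + Real.log ((N : ℝ) / (A.card : ℝ))) →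
        ∃ (Γ : Finset (ZMod N)) (ε : ℝ), 0 < ε ∧
          (Γ.card : ℝ) ≤ 32 * C * Real.log ((N : ℝ) / (A.card : ℝ)) ∧
          (1 / (8 * (C + 3))) / Real.log ((N : ℝ) / (A.card : ℝ)) ≤ ε ∧
          bohr Γ ε ⊆ twoAMinusTwoA A) ∧
      ((A : Set (ZMod N)) = convexBohr γ K →
        ∃ (Γ : Finset (ZMod N)) (ε : ℝ), 0 < ε ∧
          (Γ.card : ℝ) ≤ (24 * C + 7) * Real.log ((N : ℝ) / (A.card : ℝ)) ∧
          (1 / (8 * (C + 3))) / Real.log ((N : ℝ) / (A.card : ℝ)) ≤ ε ∧
          bohr Γ ε ⊆ (A : Set (ZMod N)) ∧ bohr Γ ε ⊆ twoAMinusTwoA A)) ∧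
    (∀ (N : ℕ), 0 < N → ∀ (d : ℕ) (γ : Fin d → ZMod N) (K : Set (Fin d → ℝ)), Convex ℝ K →
      (∀ y ∈ K, -y ∈ K) → K.Nonempty → ∀ R : ℝ, (d : ℝ) + 2 ≤ R → (∀ y ∈ K, ∀ k, |y k| ≤ R) →
      ∃ Γ : Finset (ZMod N),
        (Γ.card : ℝ) ≤ 24 * d + 4 * (Real.log ((N : ℝ) / ((convexBohr γ K).ncard : ℝ)) / Real.log R) ∧
        bohr Γ (1 / (8 * R)) ⊆ convexBohr γ K) := by
  refine ⟨?_, ?_⟩
  swap
  · intro N hN d γ K hK hsym hne R hR hbox
    obtain ⟨Γ, h1, h2, -⟩ := part_one N hN d γ K hK hsym hne R hR hbox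
    exact ⟨Γ, h1, h2⟩
  intro C hC N hN A hAne hα d γ K hK hsym hKne hd hbox
  obtain ⟨l, hl⟩ : ∃ l : ℝ, l = Real.log ((N : ℝ) / (A.card : ℝ)) := ⟨_, rfl⟩
  rw [← hl] at hd hbox ⊢
  have hNpos : (0 : ℝ) < N := by exact_mod_cast hN
  have hApos : (0 : ℝ) < A.card := by exact_mod_cast hAne.card_pos
  have h2 : (2 : ℝ) ≤ (N : ℝ) / (A.card : ℝ) := by
    rw [div_le_iff₀ hNpos] at hα
    rw [le_div_iff₀ hApos]
    linarith
  have hl2 : Real.log 2 ≤ l := by
    rw [hl]
    exact Real.log_le_log (by norm_num) h2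
  have hlog2 := Real.log_two_gt_d9
  have hl0 : 0 < l := by linarith
  obtain ⟨R, hR⟩ : ∃ R : ℝ, R = (C + 3) * l := ⟨_, rfl⟩
  rw [← hR] at hbox
  have hR3 : 3 * l ≤ R := by
    rw [hR]; nlinarith
  have hRC : C * l + 2 ≤ R := by
    rw [hR]
    nlinarith
  have hR2 : 2 ≤ R := by nlinarith
  obtain ⟨Γ, hΓ, hΓ', h0P⟩ := part_one N hN d γ K hK hsym hKne R (by linarith) hbox
  have hlogR : 0 < Real.log R := Real.log_pos (by linarith)
  have hεR : 1 / (8 * (C + 3)) / l ≤ 1 / (8 * R) := by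
    rw [hR, div_div]
    apply le_of_eq
    congr 1
    ring
  constructor
  · intro hsub hdens
    have hlog : Real.log (2 + l) ≤ 2 * Real.log R := by
      have h3 : 2 + l ≤ R ^ 2 := by nlinarith
      have h4 := Real.log_le_log (by linarith) h3
      rw [Real.log_pow] at h4
      push_cast at h4
      exact h4
    refine ⟨Γ, 1 / (8 * R), by positivity, ?_, hεR, hΓ'.trans hsub⟩
    have h5 : Real.log ((N : ℝ) / ((convexBohr γ K).ncard : ℝ)) / Real.log R ≤ 2 * (C * l) := by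
      rw [div_le_iff₀ hlogR]
      calc Real.log ((N : ℝ) / ((convexBohr γ K).ncard : ℝ)) ≤ C * l * Real.log (2 + l) := hdens
        _ ≤ C * l * (2 * Real.log R) := by
            apply mul_le_mul_of_nonneg_left hlog
            positivity
        _ = 2 * (C * l) * Real.log R := by ring
    calc (Γ.card : ℝ) ≤ 24 * d + 4 * (Real.log ((N : ℝ) / ((convexBohr γ K).ncard : ℝ)) / Real.log R) := hΓ
      _ ≤ 24 * (C * l) + 4 * (2 * (C * l)) := by linarith
      _ = 32 * C * l := by ring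
  · intro hA
    have hcard : (convexBohr γ K).ncard = A.card := by
      rw [← hA, Set.ncard_coe_finset]
    rw [hcard, ← hl] at hΓ
    have h0A : (0 : ZMod N) ∈ A := by
      rw [← Finset.mem_coe, hA]
      exact h0P
    refine ⟨Γ, 1 / (8 * R), by positivity, ?_, hεR, ?_, ?_⟩
    · have h5 : l / Real.log R ≤ 7 / 4 * l := by
        rw [div_le_iff₀ hlogR]
        have h6 : Real.log 2 ≤ Real.log R := Real.log_le_log (by norm_num) hR2
        have h7 : (4 : ℝ) / 7 ≤ Real.log R := by linarith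
        nlinarith
      calc (Γ.card : ℝ) ≤ 24 * d + 4 * (l / Real.log R) := hΓ
        _ ≤ 24 * (C * l) + 4 * (7 / 4 * l) := by linarith
        _ = (24 * C + 7) * l := by ring
    · rw [hA]; exact hΓ'
    · intro x hx
      have hx' : x ∈ A := by
        rw [← Finset.mem_coe, hA]
        exact hΓ' hx
      exact ⟨x, hx', 0, h0A, 0, h0A, 0, h0A, by simp⟩

end Pool.Agent.Results.MP_169871_nt.ConvexBohrSets
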