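import Pool.Agent.V1121.PF.QP.Energy

/-!
# Q1 for sets of additive energy at least `exp (- c (log (1/α))^{1/4}) |A|^3`

Let `A ⊆ ℤ/N` be a set of density `α` whose additive energy is at least `|A|^3 / K` (for instance `|A + A| ≤ K |A|`).
For every `R ≥ 10^17 (log 2K)^4` the set `2A - 2A` contains a Bohr set `B(Γ, 1/(8R))` with
`|Γ| ≤ 10^15 (log 2K)^4 + 5 log (1/α) / log R`. Hence the conclusion of Q1 holds for all sets with
`(log 2K)^4 ≤ C log (1/α)`. The third part shows that the term `log (1/α) / log R` is necessary.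

Proof. (0) The Balog–Szemerédi–Gowers theorem (starting files) reduces to sets of small doubling.
(1) Then `A` has at least `|A| / K^{O(1 + log (1 + log 2K))}` elements in a translate of a proper progression `P` of
dimension `O(log 2K)` with `|P| ≤ |A|` (starting files, and `Pool/Agent/V1121/PF`). (2) Random sampling (the
Croot–Sisask method, `QP/CS`) gives a set `T ⊆ P` of almost periods of relative density `exp (- O(log^4 2K))`.
(3) A local Chang inequality on `P` without loss in the scale (`QP/WRudin`, `QP/Smooth`) controls the large spectrum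
of `T`. (4) A discrete form of Bernstein's inequality (`QP/Bern`) allows one to pass from the large spectrum to
`2A - 2A` with a Bohr set of constant radius (`QP/Struct`). (5) The starting theorem on Bohr sets in proper
progressions (`TH858/GP`).
-/

set_option autoImplicit false

namespace Pool.Agent.Results.MP_169871_nt.QuasipolyEnergy

open Pool.Agent.TH858 Pool.Agent.V1121.PF
open scoped Pointwise

/-- The Bohr set `B(Γ, ε) = {x ∈ ℤ/N : ‖γ x / N‖ ≤ ε for all γ ∈ Γ}`; the norm is the distance to the nearest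
integer. -/
def bohr {N : ℕ} (Γ : Finset (ZMod N)) (ε : ℝ) : Set (ZMod N) :=
  {x | ∀ γ ∈ Γ, |((γ * x).val : ℝ) / (N : ℝ) - ((round (((γ * x).val : ℝ) / (N : ℝ)) : ℤ) : ℝ)| ≤ ε}

/-- The set `2A - 2A`. -/
def twoAMinusTwoA {N : ℕ} (A : Finset (ZMod N)) : Set (ZMod N) :=
  {x | ∃ a₁ ∈ A, ∃ a₂ ∈ A, ∃ a₃ ∈ A, ∃ a₄ ∈ A, x = a₁ + a₂ - a₃ - a₄}

/-- Part 1: the Bohr set in `2A - 2A` for a set of energy at least `|A|^3 / K`.
Part 2: the conclusion of Q1 if moreover `(log 2K)^4 ≤ C log (1/α)`.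
Part 3: a lower bound for the number of frequencies. -/
theorem result :
    (∀ N : ℕ, 0 < N → ∀ A : Finset (ZMod N), A.Nonempty → ∀ K : ℝ, 1 ≤ K →
      (A.card : ℝ) ^ 3 ≤ K * (A.addEnergy A : ℕ) →
      ∀ R : ℝ, 10 ^ 17 * Real.log (2 * K) ^ 4 ≤ R →
        ∃ Γ : Finset (ZMod N),
          (Γ.card : ℝ) ≤ 10 ^ 15 * Real.log (2 * K) ^ 4 + 5 * (Real.log (N / A.card) / Real.log R) ∧
          bohr Γ (1 / (8 * R)) ⊆ twoAMinusTwoA A) ∧
    (∀ C : ℝ, 0 < C → ∃ C' c' : ℝ, 0 < C' ∧ 0 < c' ∧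
      ∀ N : ℕ, 0 < N → ∀ A : Finset (ZMod N), A.Nonempty → (A.card : ℝ) / N ≤ 1 / 2 →
        ∀ K : ℝ, 1 ≤ K → (A.card : ℝ) ^ 3 ≤ K * (A.addEnergy A : ℕ) →
          Real.log (2 * K) ^ 4 ≤ C * Real.log (N / A.card) →
          ∃ (Γ : Finset (ZMod N)) (ε : ℝ), (Γ.card : ℝ) ≤ C' * Real.log (N / A.card) ∧
            c' / Real.log (N / A.card) ≤ ε ∧ bohr Γ ε ⊆ twoAMinusTwoA A) ∧
    (∀ N : ℕ, 0 < N → ∀ A : Finset (ZMod N), A.Nonempty → ∀ K : ℝ, ((A + A).card : ℝ) ≤ K * A.card →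
      ∀ (Γ : Finset (ZMod N)) (ε : ℝ), 0 < ε → ε ≤ 1 → bohr Γ ε ⊆ twoAMinusTwoA A →
        Real.log (N / A.card) - 4 * Real.log K ≤ Γ.card * Real.log (2 / ε)) := by
  refine ⟨?_, ?_, ?_⟩
  · intro N hN A hA K hK1 hE R hR
    have : NeZero N := ⟨hN.ne'⟩
    obtain ⟨Γ, h1, h2⟩ := QP.main_energy A hA K hK1 hE R hR
    exact ⟨Γ, h1, fun x hx => h2 x hx⟩
  · intro C hC
    refine ⟨10 ^ 15 * C + 5, 1 / (8 * 10 ^ 17 * (C + 1)), by positivity, by positivity, ?_⟩
    intro N hN A hA hα K hK1 hE hKC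
    have : NeZero N := ⟨hN.ne'⟩
    obtain ⟨Γ, h1, h2⟩ := QP.question_energy C hC A hA hα K hK1 hE hKC
    exact ⟨Γ, _, h1, le_rfl, fun x hx => h2 x hx⟩
  · intro N hN A hA K hK Γ ε hε hε1 hsub
    have : NeZero N := ⟨hN.ne'⟩
    obtain ⟨hK1, _⟩ := LC.cover_prog A hA K hK
    have h := LC.lower A hA K hK1 hK Γ ε hε hε1 fun x hx => hsub hx
    linarith

end Pool.Agent.Results.MP_169871_nt.QuasipolyEnergy
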